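import Mathlib
import Pool.Agent.H569_KT.Ramsey

set_option autoImplicit false

namespace H569KT

open Finset

/-- A set `T` of at most `s` elements of a linearly ordered set `Z` with at least `2 s` elements is
contained in a union `F ⊆ Z` of `s` disjoint pairs of neighbours: every element of `Z \ F` has an
even number of elements of `F` below it. -/
theorem exists_even_cover {α : Type*} [LinearOrder α] : ∀ (m : ℕ) (Z T : Finset α) (s : ℕ),
    Z.card = m → T ⊆ Z → T.card ≤ s → 2 * s ≤ Z.card →
    ∃ F, T ⊆ F ∧ F ⊆ Z ∧ F.card = 2 * s ∧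
      ∀ v ∈ Z, v ∉ F → Even ((F.filter (fun f => f < v)).card) := by
  intro m
  induction m using Nat.strong_induction_on with
  | _ m ih =>
    intro Z T s hm hT hTc hs
    rcases Nat.lt_or_ge (2 * s) Z.card with hlt | hge
    swap
    · refine ⟨Z, hT, Subset.refl _, by omega, fun v hv hv' => absurd hv hv'⟩
    have hne : Z.Nonempty := by rw [← Finset.card_pos]; omega
    set z := Z.min' hne with hz
    have hzZ : z ∈ Z := Z.min'_mem hne
    have hzmin : ∀ x ∈ Z, z ≤ x := fun x hx => Z.min'_le x hx
    have hc1 : (Z.erase z).card = m - 1 := by rw [Finset.card_erase_of_mem hzZ, hm]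
    by_cases hzT : z ∈ T
    · -- remove `z` and the next element
      have hTpos : 0 < T.card := Finset.card_pos.2 ⟨z, hzT⟩
      have hne2 : (Z.erase z).Nonempty := by rw [← Finset.card_pos]; omega
      set w := (Z.erase z).min' hne2 with hw
      have hwZ : w ∈ Z.erase z := (Z.erase z).min'_mem hne2
      have hwmin : ∀ x ∈ Z.erase z, w ≤ x := fun x hx => (Z.erase z).min'_le x hx
      have hc2 : ((Z.erase z).erase w).card = m - 2 := by
        rw [Finset.card_erase_of_mem hwZ, hc1]; omega
      obtain ⟨F, h1, h2, h3, h4⟩ := ih (m - 2) (by omega) ((Z.erase z).erase w)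
        ((T.erase z).erase w) (s - 1) hc2
        (Finset.erase_subset_erase _ (Finset.erase_subset_erase _ hT))
        (by
          have : ((T.erase z).erase w).card ≤ (T.erase z).card := Finset.card_erase_le
          rw [Finset.card_erase_of_mem hzT] at this
          omega)
        (by omega)
      have hwF : w ∉ F := fun h => by simpa using h2 h
      have hzF : z ∉ F := fun h => by simpa using h2 h
      have hzw : z ≠ w := fun h => by rw [← h] at hwZ; simp at hwZ
      have hziw : z ∉ insert w F := by simp [hzw, hzF]
      refine ⟨insert z (insert w F), ?_, ?_, ?_, ?_⟩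
      · intro x hx
        by_cases hxz : x = z
        · simp [hxz]
        by_cases hxw : x = w
        · simp [hxw]
        · have := h1 (Finset.mem_erase.2 ⟨hxw, Finset.mem_erase.2 ⟨hxz, hx⟩⟩)
          simp [this]
      · intro x hx
        rcases Finset.mem_insert.1 hx with rfl | hx
        · exact hzZ
        rcases Finset.mem_insert.1 hx with rfl | hx
        · exact Finset.mem_of_mem_erase hwZ
        · exact Finset.mem_of_mem_erase (Finset.mem_of_mem_erase (h2 hx))
      · rw [Finset.card_insert_of_notMem hziw, Finset.card_insert_of_notMem hwF, h3]; omega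
      · intro v hv hvF
        simp only [Finset.mem_insert, not_or] at hvF
        obtain ⟨hvz, hvw, hvF⟩ := hvF
        have hv1 : v ∈ (Z.erase z).erase w :=
          Finset.mem_erase.2 ⟨hvw, Finset.mem_erase.2 ⟨hvz, hv⟩⟩
        have hzv : z < v := lt_of_le_of_ne (hzmin v hv) (Ne.symm hvz)
        have hwv : w < v := lt_of_le_of_ne
          (hwmin v (Finset.mem_erase.2 ⟨hvz, hv⟩)) (Ne.symm hvw)
        have he := h4 v hv1 hvF
        have hset : (insert z (insert w F)).filter (fun f => f < v)
            = insert z (insert w (F.filter (fun f => f < v))) := by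
          rw [Finset.filter_insert, if_pos hzv, Finset.filter_insert, if_pos hwv]
        rw [hset, Finset.card_insert_of_notMem (by simp [hzw, hzF]),
          Finset.card_insert_of_notMem (by simp [hwF])]
        rw [add_assoc]
        exact he.add (by decide)
    · have hTZ : T ⊆ Z.erase z := fun x hx =>
        Finset.mem_erase.2 ⟨fun h => hzT (h ▸ hx), hT hx⟩
      obtain ⟨F, h1, h2, h3, h4⟩ := ih (m - 1) (by omega) (Z.erase z) T s hc1 hTZ hTc (by omega)
      refine ⟨F, h1, h2.trans (Finset.erase_subset _ _), h3, ?_⟩
      intro v hv hvF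
      by_cases hvz : v = z
      · have : F.filter (fun f => f < v) = ∅ := by
          rw [Finset.filter_eq_empty_iff]
          intro x hx
          rw [hvz, not_lt]
          exact hzmin x (Finset.mem_of_mem_erase (h2 hx))
        rw [this]; simp
      · exact h4 v (Finset.mem_erase.2 ⟨hvz, hv⟩) hvF

/-- Sorted enumeration of `insert v F`. -/
theorem orderEmb_insert {n q : ℕ} (F : Finset (Fin n)) (hF : F.card = q) (v : Fin n) (hv : v ∉ F)
    (hI : (insert v F).card = q + 1) :
    ∃ p : Fin (q + 1), (p : ℕ) = (F.filter (fun f => f < v)).card ∧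
      ((insert v F).orderEmbOfFin hI : Fin (q + 1) → Fin n)
        = Fin.insertNth (α := fun _ => Fin n) p v (F.orderEmbOfFin hF) := by
  set e := (insert v F).orderEmbOfFin hI with he
  have hvr : v ∈ Set.range e := by rw [he, Finset.range_orderEmbOfFin]; simp
  obtain ⟨p, hp⟩ := hvr
  have hrest : (fun i => e (p.succAbove i)) = F.orderEmbOfFin hF := by
    apply Finset.orderEmbOfFin_unique
    · intro x
      have h1 : e (p.succAbove x) ∈ insert v F := Finset.orderEmbOfFin_mem _ _ _
      rcases Finset.mem_insert.1 h1 with h | h
      · exfalso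
        have : e (p.succAbove x) = e p := by rw [h, hp]
        exact Fin.succAbove_ne p x (e.injective this)
      · exact h
    · intro a b hab
      exact e.strictMono (Fin.strictMono_succAbove p hab)
  refine ⟨p, ?_, ?_⟩
  · have h2 : F.filter (fun f => f < v) = (Finset.univ.filter (fun i : Fin (q + 1) => i < p)).map
        e.toEmbedding := by
      ext x
      simp only [Finset.mem_filter, Finset.mem_map, Finset.mem_univ, true_and]
      constructor
      · rintro ⟨hx, hxv⟩
        have : x ∈ Set.range e := by rw [he, Finset.range_orderEmbOfFin]; simp [hx]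
        obtain ⟨i, hi⟩ := this
        refine ⟨i, ?_, hi⟩
        rw [← hi, ← hp] at hxv
        exact e.lt_iff_lt.1 hxv
      · rintro ⟨i, hi, hix⟩
        have hxv : x < v := by
          rw [← hix, ← hp]; exact e.lt_iff_lt.2 hi
        refine ⟨?_, hxv⟩
        have h1 : e i ∈ insert v F := Finset.orderEmbOfFin_mem _ _ _
        have hix' : e i = x := hix
        rw [hix'] at h1
        rcases Finset.mem_insert.1 h1 with h | h
        · exact absurd h hxv.ne
        · exact h
    rw [h2, Finset.card_map]
    have h3 : (Finset.univ.filter (fun i : Fin (q + 1) => i < p)) = Finset.Iio p := by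
      ext i; simp
    rw [h3, Fin.card_Iio]
  · rw [← hrest]
    funext i
    rcases Fin.eq_self_or_eq_succAbove p i with h | ⟨j, h⟩
    · rw [h, Fin.insertNth_apply_same, hp]
    · rw [h, Fin.insertNth_apply_succAbove]

/-- The determinant with the last degree of freedom `v`, as a function of `v`. -/
noncomputable def U {q : ℕ} (rest : Fin q → Fin (q + 1) → ℝ) (v : Fin (q + 1) → ℝ) : ℝ :=
  ∑ j : Fin (q + 1), (-1) ^ (j : ℕ) * v j *
    (Matrix.of (fun (a b : Fin q) => rest a (j.succAbove b))).det

theorem det_insertNth {q : ℕ} (p : Fin (q + 1)) (rest : Fin q → Fin (q + 1) → ℝ)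
    (v : Fin (q + 1) → ℝ) :
    (Matrix.of (Fin.insertNth (α := fun _ => Fin (q + 1) → ℝ) p v rest)).det
      = (-1) ^ (p : ℕ) * U rest v := by
  rw [Matrix.det_succ_row _ p, U, Finset.mul_sum]
  refine Finset.sum_congr rfl fun j _ => ?_
  have h1 : (Matrix.of (Fin.insertNth (α := fun _ => Fin (q + 1) → ℝ) p v rest)) p j = v j := by
    simp
  have h2 : ((Matrix.of (Fin.insertNth (α := fun _ => Fin (q + 1) → ℝ) p v rest)).submatrix
      p.succAbove j.succAbove) = Matrix.of (fun (a b : Fin q) => rest a (j.succAbove b)) := by
    ext a b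
    simp
  rw [h1, h2, pow_add]
  ring

end H569KT
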