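import Mathlib
import Pool.Agent.H569_KT.Core

set_option autoImplicit false

namespace H569KT

open Finset

/-- General position of a vector configuration. -/
def GP {n d : ℕ} (h : Fin n → Fin (d + 1) → ℝ) : Prop :=
  ∀ S : Fin (d + 1) ↪ Fin n, (Matrix.of (fun j => h (S j))).det ≠ 0

theorem GP.eq_zero {n d : ℕ} {h : Fin n → Fin (d + 1) → ℝ} (hh : GP h) (c : Fin n → ℝ)
    (hc : ∑ i, c i • h i = 0) (R : Finset (Fin n)) (hR : R.card + (d + 1) = n)
    (hR0 : ∀ i ∈ R, c i = 0) : c = 0 := by
  have hcard : (Rᶜ).card = d + 1 := by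
    rw [Finset.card_compl, Fintype.card_fin]; omega
  set e := (Rᶜ).orderEmbOfFin hcard with he
  have hdet := hh e.toEmbedding
  have hsum : ∑ j, c (e j) • h (e j) = 0 := by
    have h1 : ∑ i, c i • h i = ∑ i ∈ Rᶜ, c i • h i := by
      symm
      apply Finset.sum_subset (Finset.subset_univ _)
      intro i _ hi
      have : i ∈ R := by simpa using hi
      rw [hR0 i this, zero_smul]
    have h2 : Rᶜ = Finset.univ.map e.toEmbedding := by
      rw [he, Finset.map_orderEmbOfFin_univ]
    rw [h1, h2, Finset.sum_map] at hc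
    exact hc
  have hv : Matrix.vecMul (fun j => c (e j)) (Matrix.of (fun j => h (e.toEmbedding j))) = 0 := by
    ext k
    have := congrFun hsum k
    simpa [Matrix.vecMul, dotProduct, Finset.sum_apply] using this
  have hz := Matrix.eq_zero_of_vecMul_eq_zero hdet hv
  funext i
  by_cases hi : i ∈ R
  · exact hR0 i hi
  · have : i ∈ Set.range e := by
      rw [he, Finset.range_orderEmbOfFin]; simpa using hi
    obtain ⟨j, hj⟩ := this
    rw [← hj]
    exact congrFun hz j

theorem config (s lam : ℕ) : ∃ N, ∀ (d n : ℕ) (_ : n = d + 2 * s + 2)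
    (h : Fin n → Fin (d + 1) → ℝ), N ≤ n → GP h →
    ∃ Z : Finset (Fin n), Z.card = 2 * s + 1 + lam ∧ ∀ T ⊆ Z, T.card ≤ s →
      ∃ c : Fin n → ℝ, (∑ i, c i • h i = 0) ∧ (∀ i ∈ T, c i = 0) ∧ (∀ i ∈ Z, 0 ≤ c i) ∧
        ∃ i ∈ Z, 0 < c i := by
  obtain ⟨N, hN⟩ := ramsey_aux (2 * s + 1) (2 * s + 1 + lam) (2 * s + 1 + lam)
  refine ⟨N, ?_⟩
  intro d n hn h hNn hh
  -- dependencies
  set Φ := Fintype.linearCombination ℝ h with hΦ
  have hrank : 2 * s + 1 ≤ Module.finrank ℝ (LinearMap.ker Φ) := by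
    have h1 := LinearMap.finrank_range_add_finrank_ker Φ
    have h2 : Module.finrank ℝ (LinearMap.range Φ) ≤ d + 1 := by
      have := Submodule.finrank_le (LinearMap.range Φ)
      simpa using this
    simp only [Module.finrank_fintype_fun_eq_card, Fintype.card_fin] at h1
    omega
  obtain ⟨b, hb⟩ := exists_linearIndependent_of_le_finrank hrank
  set g : Fin n → Fin (2 * s + 1) → ℝ := fun i j => (b j : Fin n → ℝ) i with hg
  have hbmem : ∀ u : Fin (2 * s + 1) → ℝ, ∑ i, (∑ j, u j * g i j) • h i = 0 := by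
    intro u
    have h0 : (∑ j, u j • b j : LinearMap.ker Φ).1 ∈ LinearMap.ker Φ := Subtype.property _
    have h1 : Fintype.linearCombination ℝ h (∑ j, u j • b j : LinearMap.ker Φ).1 = 0 :=
      LinearMap.mem_ker.1 h0
    rw [Fintype.linearCombination_apply] at h1
    have h2 : ∀ i, ((∑ j, u j • b j : LinearMap.ker Φ).1 : Fin n → ℝ) i = ∑ j, u j * g i j := by
      intro i
      simp [hg, Finset.sum_apply]
    simpa only [h2] using h1
  have hgdet : ∀ e : Fin (2 * s + 1) ↪ Fin n, (Matrix.of (fun j => g (e j))).det ≠ 0 := by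
    intro e hdet
    obtain ⟨u, hu0, hu⟩ := Matrix.exists_mulVec_eq_zero_iff.2 hdet
    have hc := hh.eq_zero (fun i => ∑ j, u j * g i j) (hbmem u)
      (Finset.univ.map e) (by simp; omega) (by
        intro i hi
        rw [Finset.mem_map] at hi
        obtain ⟨a, _, rfl⟩ := hi
        have := congrFun hu a
        simp only [Matrix.mulVec, dotProduct, Matrix.of_apply, Pi.zero_apply] at this
        rw [← this]
        exact Finset.sum_congr rfl fun j _ => mul_comm _ _)
    have h3 : ∑ j, u j • b j = 0 := by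
      apply Subtype.ext
      funext i
      have := congrFun hc i
      simpa [hg, Finset.sum_apply] using this
    have h4 := Fintype.linearIndependent_iff.1 hb u h3
    exact hu0 (funext h4)
  -- colouring
  obtain ⟨Z, hZc, ε, hε, hZ⟩ : ∃ Z : Finset (Fin n), Z.card = 2 * s + 1 + lam ∧
      ∃ ε : ℝ, ε ≠ 0 ∧ ∀ S : Finset (Fin n), S ⊆ Z → ∀ hS : S.card = 2 * s + 1,
        0 < ε * (Matrix.of (fun j => g (S.orderEmbOfFin hS j))).det := by
    rcases hN (Fin n) Finset.univ (fun S => ∃ hS : S.card = 2 * s + 1,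
      0 < (Matrix.of (fun j => g (S.orderEmbOfFin hS j))).det) (by simpa using hNn) with
      ⟨Z, _, hZc, hZ⟩ | ⟨Z, _, hZc, hZ⟩
    · refine ⟨Z, hZc, 1, one_ne_zero, fun S hSZ hS => ?_⟩
      obtain ⟨_, hpos⟩ := hZ S (Finset.mem_powersetCard.2 ⟨hSZ, hS⟩)
      rw [one_mul]; exact hpos
    · refine ⟨Z, hZc, -1, by norm_num, fun S hSZ hS => ?_⟩
      have h1 := hZ S (Finset.mem_powersetCard.2 ⟨hSZ, hS⟩)
      push Not at h1
      have h2 := h1 hS
      have h3 := hgdet (S.orderEmbOfFin hS).toEmbedding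
      have h4 : (Matrix.of (fun j => g (S.orderEmbOfFin hS j))).det < 0 :=
        lt_of_le_of_ne h2 h3
      linarith
  refine ⟨Z, hZc, fun T hT hTs => ?_⟩
  obtain ⟨F, hTF, hFZ, hFc, hF⟩ := exists_even_cover _ Z T s rfl hT hTs (by omega)
  set rest : Fin (2 * s) → Fin (2 * s + 1) → ℝ := fun j => g (F.orderEmbOfFin hFc j) with hrest
  have hUF : ∀ f ∈ F, U rest (g f) = 0 := by
    intro f hf
    have : f ∈ Set.range (F.orderEmbOfFin hFc) := by
      rw [Finset.range_orderEmbOfFin]; exact hf
    obtain ⟨a, ha⟩ := this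
    have h1 := det_insertNth 0 rest (g f)
    have h2 : (Matrix.of (Fin.insertNth (α := fun _ => Fin (2 * s + 1) → ℝ) 0 (g f) rest)).det
        = 0 := by
      apply Matrix.det_zero_of_row_eq (i := 0) (j := (0 : Fin (2 * s + 1)).succAbove a)
        (Fin.succAbove_ne _ _).symm
      funext k
      simp only [Matrix.of_apply, Fin.insertNth_apply_same, Fin.insertNth_apply_succAbove]
      rw [hrest]
      simp only [ha]
    rw [h2] at h1
    simpa using h1.symm
  have hUZ : ∀ v ∈ Z, v ∉ F → 0 < ε * U rest (g v) := by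
    intro v hv hvF
    have hI : (insert v F).card = 2 * s + 1 := by
      rw [Finset.card_insert_of_notMem hvF, hFc]
    obtain ⟨p, hp, hpe⟩ := orderEmb_insert F hFc v hvF hI
    have h1 := hZ (insert v F) (Finset.insert_subset hv hFZ) hI
    have h2 : (Matrix.of (fun j => g ((insert v F).orderEmbOfFin hI j)))
        = Matrix.of (Fin.insertNth (α := fun _ => Fin (2 * s + 1) → ℝ) p (g v) rest) := by
      congr 1
      funext j
      rw [hpe]
      rcases Fin.eq_self_or_eq_succAbove p j with h | ⟨a, h⟩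
      · rw [h, Fin.insertNth_apply_same, Fin.insertNth_apply_same]
      · rw [h, Fin.insertNth_apply_succAbove, Fin.insertNth_apply_succAbove]
    rw [h2, det_insertNth] at h1
    have hev : Even (p : ℕ) := by rw [hp]; exact hF v hv hvF
    rw [hev.neg_one_pow, one_mul] at h1
    exact h1
  refine ⟨fun i => ε * U rest (g i), ?_, ?_, ?_, ?_⟩
  · have h1 := hbmem (fun j => ε * ((-1) ^ (j : ℕ) *
      (Matrix.of (fun (a b : Fin (2 * s)) => rest a (j.succAbove b))).det))
    rw [← h1]
    refine Finset.sum_congr rfl fun i _ => ?_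
    have h2 : ε * U rest (g i) = ∑ j : Fin (2 * s + 1), (fun j : Fin (2 * s + 1) =>
        ε * ((-1) ^ (j : ℕ) * (Matrix.of (fun (a b : Fin (2 * s)) =>
          rest a (j.succAbove b))).det)) j * g i j := by
      unfold U
      rw [Finset.mul_sum]
      refine Finset.sum_congr rfl fun j _ => ?_
      ring
    show (ε * U rest (g i)) • h i = _
    rw [h2]
  · intro i hi
    simp only
    rw [hUF i (hTF hi), mul_zero]
  · intro i hi
    by_cases hiF : i ∈ F
    · simp only; rw [hUF i hiF, mul_zero]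
    · exact (hUZ i hi hiF).le
  · have : ∃ i ∈ Z, i ∉ F := by
      by_contra hcon
      push Not at hcon
      have := Finset.card_le_card (show Z ⊆ F from hcon)
      omega
    obtain ⟨i, hi, hiF⟩ := this
    exact ⟨i, hi, hUZ i hi hiF⟩

end H569KT
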