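import Mathlib
import Pool.Agent.H569_KT.Config

set_option autoImplicit false

namespace H569KT

open Finset Filter Topology
open scoped RealInnerProductSpace

/-- Euclidean space. -/
abbrev E (d : ℕ) := EuclideanSpace ℝ (Fin d)

/-- Homogeneous coordinates. -/
def hom {n d : ℕ} (x : Fin n → E d) : Fin n → Fin (d + 1) → ℝ :=
  fun i => Fin.cons 1 (fun j => x i j)

/-- Existence of a transversal flat of codimension `lam`, with the data in a compact set. -/
def Good (n d lam k : ℕ) (x : Fin n → E d) : Prop :=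
  ∃ e : Fin lam → E d, Orthonormal ℝ e ∧ ∃ w : Finset (Fin n) → Fin n → ℝ,
    (∀ Y i, 0 ≤ w Y i) ∧ (∀ Y i, w Y i ≤ 1) ∧
    (∀ Y, Y.card = k → (∀ i, i ∉ Y → w Y i = 0) ∧ ∑ i, w Y i = 1) ∧
    ∀ Y Y', Y.card = k → Y'.card = k → ∀ j,
      ⟪e j, ∑ i, w Y i • x i⟫ = ⟪e j, ∑ i, w Y' i • x i⟫

theorem good_limit {n d lam k : ℕ} (xs : ℕ → Fin n → E d) (x : Fin n → E d)
    (h : Tendsto xs atTop (𝓝 x)) (hg : ∀ m, Good n d lam k (xs m)) : Good n d lam k x := by
  choose e he w hw0 hw1 hws hwe using hg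
  set K : Set ((Fin lam → E d) × (Finset (Fin n) → Fin n → ℝ)) :=
    (Set.univ.pi fun _ => Metric.closedBall (0 : E d) 1) ×ˢ
      (Set.univ.pi fun _ => Set.univ.pi fun _ => Set.Icc (0 : ℝ) 1) with hK
  have hKc : IsCompact K := by
    apply IsCompact.prod
    · exact isCompact_univ_pi fun _ => isCompact_closedBall _ _
    · exact isCompact_univ_pi fun _ => isCompact_univ_pi fun _ => isCompact_Icc
  have hmem : ∀ m, ((e m, w m) : (Fin lam → E d) × (Finset (Fin n) → Fin n → ℝ)) ∈ K := by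
    intro m
    refine ⟨?_, ?_⟩
    · intro j _
      simp only [Metric.mem_closedBall, dist_zero_right]
      exact ((he m).1 j).le
    · intro Y _ i _
      exact ⟨hw0 m Y i, hw1 m Y i⟩
  obtain ⟨⟨e', w'⟩, _, φ, hφ, hlim⟩ := hKc.tendsto_subseq hmem
  have hx : Tendsto (fun m => xs (φ m)) atTop (𝓝 x) := h.comp hφ.tendsto_atTop
  have hxi : ∀ i, Tendsto (fun m => xs (φ m) i) atTop (𝓝 (x i)) := fun i =>
    (tendsto_pi_nhds.1 hx) i
  have hlim1 : Tendsto (fun m => e (φ m)) atTop (𝓝 e') :=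
    (continuous_fst.tendsto _).comp hlim
  have hlim2 : Tendsto (fun m => w (φ m)) atTop (𝓝 w') :=
    (continuous_snd.tendsto _).comp hlim
  have hej : ∀ j, Tendsto (fun m => e (φ m) j) atTop (𝓝 (e' j)) := fun j =>
    (tendsto_pi_nhds.1 hlim1) j
  have hwYi : ∀ Y i, Tendsto (fun m => w (φ m) Y i) atTop (𝓝 (w' Y i)) := fun Y i =>
    (tendsto_pi_nhds.1 ((tendsto_pi_nhds.1 hlim2) Y)) i
  refine ⟨e', ?_, w', ?_, ?_, ?_, ?_⟩
  · rw [orthonormal_iff_ite]
    intro i j
    have h1 : Tendsto (fun m => ⟪e (φ m) i, e (φ m) j⟫) atTop (𝓝 ⟪e' i, e' j⟫) :=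
      (hej i).inner (hej j)
    have h2 : Tendsto (fun m => ⟪e (φ m) i, e (φ m) j⟫) atTop (𝓝 (if i = j then (1 : ℝ) else 0)) := by
      have : (fun m => ⟪e (φ m) i, e (φ m) j⟫) = fun _ => (if i = j then (1 : ℝ) else 0) := by
        funext m
        exact orthonormal_iff_ite.1 (he (φ m)) i j
      rw [this]
      exact tendsto_const_nhds
    exact tendsto_nhds_unique h1 h2
  · intro Y i
    exact ge_of_tendsto' (hwYi Y i) fun m => hw0 _ Y i
  · intro Y i
    exact le_of_tendsto' (hwYi Y i) fun m => hw1 _ Y i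
  · intro Y hY
    refine ⟨?_, ?_⟩
    · intro i hi
      have h1 := hwYi Y i
      have : (fun m => w (φ m) Y i) = fun _ => (0 : ℝ) := by
        funext m
        exact (hws (φ m) Y hY).1 i hi
      rw [this] at h1
      exact (tendsto_nhds_unique tendsto_const_nhds h1).symm
    · have h1 : Tendsto (fun m => ∑ i, w (φ m) Y i) atTop (𝓝 (∑ i, w' Y i)) :=
        tendsto_finset_sum _ fun i _ => hwYi Y i
      have : (fun m => ∑ i, w (φ m) Y i) = fun _ => (1 : ℝ) := by
        funext m
        exact (hws (φ m) Y hY).2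
      rw [this] at h1
      exact (tendsto_nhds_unique tendsto_const_nhds h1).symm
  · intro Y Y' hY hY' j
    have h1 : ∀ Y : Finset (Fin n),
        Tendsto (fun m => ⟪e (φ m) j, ∑ i, w (φ m) Y i • xs (φ m) i⟫) atTop
          (𝓝 ⟪e' j, ∑ i, w' Y i • x i⟫) := by
      intro Y
      apply (hej j).inner
      exact tendsto_finset_sum _ fun i _ => (hwYi Y i).smul (hxi i)
    have h2 := h1 Y
    have h3 := h1 Y'
    have : (fun m => ⟪e (φ m) j, ∑ i, w (φ m) Y i • xs (φ m) i⟫)
        = fun m => ⟪e (φ m) j, ∑ i, w (φ m) Y' i • xs (φ m) i⟫ := by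
      funext m
      exact hwe (φ m) Y Y' hY hY' j
    rw [this] at h2
    exact tendsto_nhds_unique h2 h3

theorem good_flat {n d lam k : ℕ} (x : Fin n → E d) (hg : Good n d lam k x) (hk : k ≤ n) :
    ∃ L : AffineSubspace ℝ (E d), (L : Set (E d)).Nonempty ∧
      Module.finrank ℝ L.direction + lam = d ∧
      ∀ Y : Finset (Fin n), Y.card = k →
        ((L : Set (E d)) ∩ convexHull ℝ (x '' (Y : Set (Fin n)))).Nonempty := by
  obtain ⟨e, he, w, hw0, hw1, hws, hwe⟩ := hg
  obtain ⟨Y0, _, hY0⟩ := Finset.exists_subset_card_eq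
    (show k ≤ (Finset.univ : Finset (Fin n)).card by simpa using hk)
  set q0 : E d := ∑ i, w Y0 i • x i with hq0
  set V : Submodule ℝ (E d) := (Submodule.span ℝ (Set.range e))ᗮ with hV
  refine ⟨AffineSubspace.mk' q0 V, ⟨q0, AffineSubspace.self_mem_mk' q0 V⟩, ?_, ?_⟩
  · rw [AffineSubspace.direction_mk']
    have h1 := Submodule.finrank_add_finrank_orthogonal (Submodule.span ℝ (Set.range e))
    rw [finrank_span_eq_card he.linearIndependent] at h1
    simp only [Fintype.card_fin, finrank_euclideanSpace] at h1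
    rw [hV]
    omega
  · intro Y hY
    refine ⟨∑ i, w Y i • x i, ?_, ?_⟩
    · rw [SetLike.mem_coe, AffineSubspace.mem_mk', vsub_eq_sub, hV, Submodule.mem_orthogonal]
      intro u hu
      induction hu using Submodule.span_induction with
      | mem u hu =>
        obtain ⟨j, rfl⟩ := hu
        rw [inner_sub_right, hwe Y Y0 hY hY0 j, sub_self]
      | zero => simp
      | add a b _ _ ha hb => rw [inner_add_left, ha, hb, add_zero]
      | smul c a _ ha => rw [inner_smul_left, ha, mul_zero]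
    · have h1 : ∑ i, w Y i • x i = ∑ i ∈ Y, w Y i • x i := by
        symm
        apply Finset.sum_subset (Finset.subset_univ _)
        intro i _ hi
        rw [(hws Y hY).1 i hi, zero_smul]
      have h2 : ∑ i ∈ Y, w Y i = 1 := by
        rw [← (hws Y hY).2]
        apply Finset.sum_subset (Finset.subset_univ _)
        intro i _ hi
        exact (hws Y hY).1 i hi
      rw [h1]
      exact (convex_convexHull ℝ _).sum_mem (fun i _ => hw0 Y i) h2
        (fun i hi => subset_convexHull ℝ _ (Set.mem_image_of_mem x hi))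

end H569KT
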