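import Mathlib
import Pool.Agent.H569_KT.Trans

set_option autoImplicit false

namespace H569KT

open Finset Filter Topology
open scoped RealInnerProductSpace

theorem generic_good (s lam : ℕ) : ∃ N, ∀ (d n : ℕ) (_ : n = d + 2 * s + 2) (_ : lam ≤ d)
    (x : Fin n → E d), N ≤ n → GP (hom x) → Good n d lam (lam + s + 1) x := by
  obtain ⟨N, hN⟩ := config s lam
  refine ⟨N, ?_⟩
  intro d n hn hlam x hNn hx
  obtain ⟨Z, hZc, hZ⟩ := hN d n hn (hom x) hNn hx
  have hIc : (Zᶜ).card = (d - lam) + 1 := by
    rw [Finset.card_compl, Fintype.card_fin, hZc]; omega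
  have hIne : (Zᶜ).Nonempty := by rw [← Finset.card_pos]; omega
  obtain ⟨i0, hi0⟩ := hIne
  classical
  set V : Submodule ℝ (E d) := vectorSpan ℝ ((Zᶜ).image x : Set (E d)) with hV
  have hVr : Module.finrank ℝ V ≤ d - lam := by
    have := finrank_vectorSpan_image_finset_le (k := ℝ) x (Zᶜ) hIc
    simpa [hV] using this
  have hVo : lam ≤ Module.finrank ℝ Vᗮ := by
    have h1 := Submodule.finrank_add_finrank_orthogonal V
    simp only [finrank_euclideanSpace, Fintype.card_fin] at h1
    omega
  set B := stdOrthonormalBasis ℝ Vᗮ with hB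
  set e : Fin lam → E d := fun j => (B (Fin.castLE hVo j) : E d) with he
  have heo : Orthonormal ℝ e := by
    have h1 : Orthonormal ℝ (fun j : Fin lam => B (Fin.castLE hVo j)) :=
      B.orthonormal.comp _ (Fin.castLE_injective hVo)
    exact h1.comp_linearIsometry (Vᗮ).subtypeₗᵢ
  have heV : ∀ j, ∀ v ∈ V, ⟪e j, v⟫ = 0 := by
    intro j v hv
    have h1 : e j ∈ Vᗮ := (B (Fin.castLE hVo j)).2
    exact (Submodule.mem_orthogonal' V (e j)).1 h1 v hv
  have heI : ∀ j, ∀ i ∈ Zᶜ, ⟪e j, x i⟫ = ⟪e j, x i0⟫ := by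
    intro j i hi
    have h1 : x i - x i0 ∈ V := by
      have : x i -ᵥ x i0 ∈ V := by
        rw [hV]
        apply vsub_mem_vectorSpan
        · rw [Finset.mem_coe]; exact Finset.mem_image_of_mem x hi
        · rw [Finset.mem_coe]; exact Finset.mem_image_of_mem x hi0
      simpa using this
    have h2 := heV j _ h1
    rw [inner_sub_right] at h2
    linarith
  -- weights
  have hw : ∀ Y : Finset (Fin n), ∃ w : Fin n → ℝ, (∀ i, 0 ≤ w i) ∧ (∀ i, w i ≤ 1) ∧
      (Y.card = lam + s + 1 → (∀ i, i ∉ Y → w i = 0) ∧ ∑ i, w i = 1 ∧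
        ∀ j, ⟪e j, ∑ i, w i • x i⟫ = ⟪e j, x i0⟫) := by
    intro Y
    by_cases hY : Y.card = lam + s + 1
    swap
    · exact ⟨fun _ => 0, fun _ => le_refl _, fun _ => zero_le_one, fun h => absurd h hY⟩
    by_cases hYI : ∃ i ∈ Y, i ∈ Zᶜ
    · obtain ⟨i1, hi1, hi1'⟩ := hYI
      refine ⟨Pi.single i1 1, ?_, ?_, fun _ => ⟨?_, ?_, ?_⟩⟩
      · intro i
        by_cases h : i = i1
        · subst h; simp
        · simp [Pi.single_eq_of_ne h]
      · intro i
        by_cases h : i = i1
        · subst h; simp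
        · simp [Pi.single_eq_of_ne h]
      · intro i hi
        have h : i ≠ i1 := fun h => hi (h ▸ hi1)
        simp [Pi.single_eq_of_ne h]
      · simp
      · intro j
        have h1 : ∑ i, (Pi.single i1 (1 : ℝ) : Fin n → ℝ) i • x i = x i1 := by
          rw [Finset.sum_eq_single i1]
          · simp
          · intro b _ hb; simp [Pi.single_eq_of_ne hb]
          · intro h; exact absurd (Finset.mem_univ _) h
        rw [h1]
        exact heI j i1 hi1'
    · push Not at hYI
      have hYZ : Y ⊆ Z := by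
        intro i hi
        have := hYI i hi
        simpa using this
      have hTc : (Z \ Y).card ≤ s := by
        rw [Finset.card_sdiff_of_subset hYZ, hZc, hY]; omega
      obtain ⟨c, hc0, hcT, hcZ, i2, hi2, hci2⟩ := hZ (Z \ Y) Finset.sdiff_subset hTc
      set A : ℝ := ∑ i ∈ Z, c i with hA
      have hApos : 0 < A := Finset.sum_pos' hcZ ⟨i2, hi2, hci2⟩
      have hsum0 : ∑ i, c i = 0 := by
        have := congrFun hc0 0
        simpa [hom, Finset.sum_apply] using this
      have hsumx : ∑ i, c i • x i = 0 := by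
        ext j
        have := congrFun hc0 j.succ
        simpa [hom, Finset.sum_apply] using this
      have hsplit : ∑ i ∈ Z, c i + ∑ i ∈ Zᶜ, c i = 0 := by
        rw [Finset.sum_add_sum_compl]; exact hsum0
      have hsplitx : ∑ i ∈ Z, c i • x i + ∑ i ∈ Zᶜ, c i • x i = 0 := by
        rw [Finset.sum_add_sum_compl]; exact hsumx
      have hle : ∀ i ∈ Z, c i ≤ A := fun i hi => Finset.single_le_sum hcZ hi
      refine ⟨fun i => if i ∈ Z then c i / A else 0, ?_, ?_, fun _ => ⟨?_, ?_, ?_⟩⟩
      · intro i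
        by_cases h : i ∈ Z
        · simp only [h, if_true]; exact div_nonneg (hcZ i h) hApos.le
        · simp [h]
      · intro i
        by_cases h : i ∈ Z
        · simp only [h, if_true]; exact (div_le_one hApos).2 (hle i h)
        · simp [h]
      · intro i hi
        by_cases h : i ∈ Z
        · simp only [h, if_true]
          rw [hcT i (Finset.mem_sdiff.2 ⟨h, hi⟩), zero_div]
        · simp [h]
      · rw [← Finset.sum_filter, Finset.filter_mem_eq_inter, Finset.univ_inter,
          ← Finset.sum_div, ← hA, div_self hApos.ne']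
      · intro j
        have h1 : ∑ i, (if i ∈ Z then c i / A else 0) • x i = A⁻¹ • ∑ i ∈ Z, c i • x i := by
          rw [Finset.smul_sum]
          simp only [ite_smul, zero_smul]
          rw [← Finset.sum_filter, Finset.filter_mem_eq_inter, Finset.univ_inter]
          refine Finset.sum_congr rfl fun i _ => ?_
          rw [smul_smul, div_eq_inv_mul]
        rw [h1, inner_smul_right]
        have h2 : ⟪e j, ∑ i ∈ Z, c i • x i⟫ = A * ⟪e j, x i0⟫ := by
          have h3 : ∑ i ∈ Z, c i • x i = - ∑ i ∈ Zᶜ, c i • x i := by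
            exact eq_neg_of_add_eq_zero_left hsplitx
          rw [h3, inner_neg_right, inner_sum]
          have h4 : ∑ i ∈ Zᶜ, ⟪e j, c i • x i⟫ = ∑ i ∈ Zᶜ, c i * ⟪e j, x i0⟫ := by
            refine Finset.sum_congr rfl fun i hi => ?_
            rw [inner_smul_right, heI j i hi]
          rw [h4, ← Finset.sum_mul]
          have h5 : ∑ i ∈ Zᶜ, c i = - A := by rw [hA]; linarith
          rw [h5]; ring
        rw [h2, ← mul_assoc, inv_mul_cancel₀ hApos.ne', one_mul]
  choose w hw0 hw1 hws using hw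
  refine ⟨e, heo, w, hw0, hw1, ?_, ?_⟩
  · intro Y hY
    exact ⟨(hws Y hY).1, (hws Y hY).2.1⟩
  · intro Y Y' hY hY' j
    rw [(hws Y hY).2.2 j, (hws Y' hY').2.2 j]

/-- The moment curve. -/
noncomputable def mom (n d : ℕ) : Fin n → E d :=
  fun i => WithLp.toLp 2 (fun j => ((i : ℕ) : ℝ) ^ ((j : ℕ) + 1))

theorem hom_mom (n d : ℕ) (i : Fin n) (j : Fin (d + 1)) :
    hom (mom n d) i j = ((i : ℕ) : ℝ) ^ (j : ℕ) := by
  refine Fin.cases ?_ ?_ j
  · simp [hom]
  · intro j; simp [hom, mom]

theorem gp_mom (n d : ℕ) : GP (hom (mom n d)) := by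
  intro S
  have h1 : (Matrix.of (fun j => hom (mom n d) (S j)))
      = Matrix.vandermonde (fun j => (((S j : Fin n) : ℕ) : ℝ)) := by
    ext a b
    rw [Matrix.of_apply, hom_mom, Matrix.vandermonde_apply]
  rw [h1, Matrix.det_vandermonde_ne_zero_iff]
  intro a b hab
  have h2 : ((S a : Fin n) : ℕ) = ((S b : Fin n) : ℕ) := Nat.cast_injective (R := ℝ) hab
  exact S.injective (Fin.ext h2)

open Polynomial in
theorem gp_dense {n d : ℕ} (x : Fin n → E d) :
    {t : ℝ | ¬ GP (hom (fun i => (1 - t) • x i + t • mom n d i))}.Finite := by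
  have h1 : ∀ S : Fin (d + 1) ↪ Fin n,
      {t : ℝ | (Matrix.of (fun j => hom (fun i => (1 - t) • x i + t • mom n d i) (S j))).det
        = 0}.Finite := by
    intro S
    set A : Matrix (Fin (d + 1)) (Fin (d + 1)) ℝ := Matrix.of (fun j => hom x (S j)) with hA
    set B : Matrix (Fin (d + 1)) (Fin (d + 1)) ℝ :=
      Matrix.of (fun j => hom (mom n d) (S j)) with hB
    set M : Matrix (Fin (d + 1)) (Fin (d + 1)) ℝ[X] :=
      Matrix.of (fun a b => (1 - X) * C (A a b) + X * C (B a b)) with hM
    have hev : ∀ t : ℝ, M.det.eval t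
        = (Matrix.of (fun j => hom (fun i => (1 - t) • x i + t • mom n d i) (S j))).det := by
      intro t
      have h2 := (Polynomial.evalRingHom t).map_det M
      rw [Polynomial.coe_evalRingHom] at h2
      rw [h2]
      congr 1
      ext a b
      simp only [RingHom.mapMatrix_apply, Matrix.map_apply, hM, Matrix.of_apply,
        Polynomial.coe_evalRingHom, Polynomial.eval_add, Polynomial.eval_mul,
        Polynomial.eval_sub, Polynomial.eval_one, Polynomial.eval_X, Polynomial.eval_C, hA, hB]
      refine Fin.cases ?_ ?_ b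
      · simp [hom]
      · intro b; simp [hom]
    have hne : M.det ≠ 0 := by
      intro h0
      have h3 := hev 1
      rw [h0, Polynomial.eval_zero] at h3
      apply gp_mom n d S
      rw [h3]
      simp
    have h4 : {t : ℝ | M.det.eval t = 0}.Finite := by
      apply Set.Finite.subset (M.det.rootSet_finite ℝ)
      intro t ht
      rw [Polynomial.mem_rootSet]
      exact ⟨hne, by simpa using ht⟩
    simpa only [hev] using h4
  apply Set.Finite.subset (Set.finite_iUnion h1)
  intro t ht
  simp only [GP, Set.mem_ofPred_eq] at ht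
  push Not at ht
  obtain ⟨S, hS⟩ := ht
  exact Set.mem_iUnion.2 ⟨S, hS⟩

theorem good_all (s lam : ℕ) : ∃ N, ∀ (d n : ℕ) (_ : n = d + 2 * s + 2) (_ : lam ≤ d)
    (x : Fin n → E d), N ≤ n → Good n d lam (lam + s + 1) x := by
  obtain ⟨N, hN⟩ := generic_good s lam
  refine ⟨N, ?_⟩
  intro d n hn hlam x hNn
  have hfin := gp_dense x
  set u : ℕ → ℝ := fun m => 1 / ((m : ℝ) + 1) with hu
  have huinj : Function.Injective u := by
    intro a b hab
    simp only [hu, one_div, inv_inj, add_left_inj, Nat.cast_inj] at hab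
    exact hab
  have hfin2 : {m : ℕ | ¬ GP (hom (fun i => (1 - u m) • x i + u m • mom n d i))}.Finite := by
    have := Set.Finite.preimage (f := u) (huinj.injOn) hfin
    exact this
  obtain ⟨M, hM⟩ := hfin2.bddAbove
  have hgood : ∀ m : ℕ, Good n d lam (lam + s + 1)
      (fun i => (1 - u (m + (M + 1))) • x i + u (m + (M + 1)) • mom n d i) := by
    intro m
    apply hN d n hn hlam _ hNn
    by_contra hcon
    have : m + (M + 1) ≤ M := hM hcon
    omega
  refine good_limit _ x ?_ hgood
  have hu0 : Tendsto (fun m => u (m + (M + 1))) atTop (𝓝 0) :=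
    (tendsto_add_atTop_iff_nat (M + 1)).2 tendsto_one_div_add_atTop_nhds_zero_nat
  rw [tendsto_pi_nhds]
  intro i
  have h1 : Tendsto (fun m => (1 - u (m + (M + 1))) • x i + u (m + (M + 1)) • mom n d i) atTop
      (𝓝 ((1 - (0 : ℝ)) • x i + (0 : ℝ) • mom n d i)) :=
    ((tendsto_const_nhds.sub hu0).smul tendsto_const_nhds).add (hu0.smul tendsto_const_nhds)
  simpa using h1

end H569KT
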