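import Mathlib
import Pool.Agent.H569_KT.Generic

set_option autoImplicit false

namespace H569KT

open Finset Filter Topology
open scoped RealInnerProductSpace

open Polynomial in
/-- A hyperplane contains at most `d` points of the moment curve. -/
theorem hyperplane_card {n d : ℕ} (f : E d →ₗ[ℝ] ℝ) (hf : f ≠ 0) (b : ℝ) :
    (Finset.univ.filter (fun i : Fin n => f (mom n d i) = b)).card ≤ d := by
  set P : ℝ[X] := (∑ j : Fin d, C (f (EuclideanSpace.single j 1)) * X ^ ((j : ℕ) + 1)) - C b
    with hP
  have hval : ∀ i : Fin n, P.eval ((i : ℕ) : ℝ) = f (mom n d i) - b := by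
    intro i
    have h1 : mom n d i = ∑ j : Fin d, (((i : ℕ) : ℝ) ^ ((j : ℕ) + 1)) •
        (EuclideanSpace.single j (1 : ℝ) : E d) := by
      ext k
      simp [mom, Finset.sum_apply, Pi.single_apply]
    rw [h1, map_sum]
    simp only [hP, Polynomial.eval_sub, Polynomial.eval_finsetSum, Polynomial.eval_mul,
      Polynomial.eval_C, Polynomial.eval_pow, Polynomial.eval_X, map_smul, smul_eq_mul]
    congr 1
    exact Finset.sum_congr rfl fun j _ => mul_comm _ _
  have hcoef : ∀ j : Fin d, P.coeff ((j : ℕ) + 1) = f (EuclideanSpace.single j 1) := by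
    intro j
    simp only [hP, Polynomial.coeff_sub, Polynomial.finsetSum_coeff, Polynomial.coeff_C_mul,
      Polynomial.coeff_X_pow, Polynomial.coeff_C]
    rw [Finset.sum_eq_single j]
    · simp
    · intro k _ hk
      have : ¬ ((j : ℕ) + 1 = (k : ℕ) + 1) := by
        intro h; exact hk (Fin.ext (by omega))
      rw [if_neg this, mul_zero]
    · intro h; exact absurd (Finset.mem_univ _) h
  have hne : P ≠ 0 := by
    intro h0
    apply hf
    have h2 : ∀ j : Fin d, f (EuclideanSpace.single j 1) = 0 := by
      intro j; rw [← hcoef j, h0, Polynomial.coeff_zero]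
    apply (EuclideanSpace.basisFun (Fin d) ℝ).toBasis.ext
    intro j
    simpa using h2 j
  have hdeg : P.natDegree ≤ d := by
    rw [hP]
    apply (Polynomial.natDegree_sub_le _ _).trans
    apply max_le
    · apply Polynomial.natDegree_sum_le_of_forall_le
      intro j _
      exact (Polynomial.natDegree_C_mul_X_pow_le _ _).trans (by omega)
    · simp
  have hinj : Set.InjOn (fun i : Fin n => ((i : ℕ) : ℝ))
      (Finset.univ.filter (fun i : Fin n => f (mom n d i) = b) : Finset (Fin n)) := by
    intro a _ c _ h
    exact Fin.ext (Nat.cast_injective (R := ℝ) h)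
  rw [← Finset.card_image_of_injOn hinj]
  apply le_trans _ hdeg
  apply le_trans _ (Polynomial.card_roots' P)
  apply le_trans _ (Multiset.toFinset_card_le _)
  apply Finset.card_le_card
  intro t ht
  rw [Finset.mem_image] at ht
  obtain ⟨i, hi, rfl⟩ := ht
  rw [Multiset.mem_toFinset, Polynomial.mem_roots hne, Polynomial.IsRoot, hval i]
  rw [(Finset.mem_filter.1 hi).2, sub_self]

/-- No `d - lam`-flat meets the convex hulls of all `k`-subsets of more than `d + 2 (k - lam)`
points of the moment curve. -/
theorem no_flat {n d lam k : ℕ} (hl1 : 1 ≤ lam) (hlk : lam ≤ k)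
    (hn : d + 2 * (k - lam) < n) (L : AffineSubspace ℝ (E d)) (hL : (L : Set (E d)).Nonempty)
    (hLd : Module.finrank ℝ L.direction + lam = d) :
    ¬ ∀ Y : Finset (Fin n), Y.card = k →
        ((L : Set (E d)) ∩ convexHull ℝ (mom n d '' (Y : Set (Fin n)))).Nonempty := by
  intro hall
  obtain ⟨q0, hq0⟩ := hL
  set V := L.direction with hV
  -- functionals vanishing on `V`
  have hsep : ∀ f : E d →ₗ[ℝ] ℝ, (∀ v ∈ V, f v = 0) → ∀ Y : Finset (Fin n), Y.card = k →
      ¬ ∀ i ∈ Y, f q0 < f (mom n d i) := by
    intro f hf Y hY hcon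
    obtain ⟨q, hqL, hqY⟩ := hall Y hY
    have h1 : f q = f q0 := by
      have : q - q0 ∈ V := by
        rw [hV]
        have := AffineSubspace.vsub_mem_direction hqL hq0
        simpa using this
      have h2 := hf _ this
      rw [map_sub] at h2
      linarith
    have h3 : convexHull ℝ (mom n d '' (Y : Set (Fin n))) ⊆ {z | f q0 < f z} := by
      apply convexHull_min
      · rintro _ ⟨i, hi, rfl⟩
        exact hcon i hi
      · exact convex_halfSpace_gt f.isLinear _
    have h4 : f q0 < f q := h3 hqY
    linarith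
  -- quotient
  set Q := E d ⧸ V with hQ
  have hQr : Module.finrank ℝ Q = lam := by
    have h1 := Submodule.finrank_quotient_add_finrank V
    simp only [finrank_euclideanSpace, Fintype.card_fin] at h1
    show Module.finrank ℝ (E d ⧸ V) = lam
    omega
  set y : Fin n → Q := fun i => Submodule.Quotient.mk (mom n d i - q0) with hy
  have hspan : Submodule.span ℝ (Set.range y) = ⊤ := by
    by_contra hne
    obtain ⟨f, hf0, hfk⟩ := Submodule.exists_le_ker_of_lt_top _ (lt_top_iff_ne_top.2 hne)
    have hf' : f.comp V.mkQ ≠ 0 := by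
      intro h0
      apply hf0
      apply LinearMap.ext
      intro z
      obtain ⟨z, rfl⟩ := Submodule.mkQ_surjective V z
      exact LinearMap.congr_fun h0 z
    have h1 := hyperplane_card (n := n) (f.comp V.mkQ) hf' (f.comp V.mkQ q0)
    have h2 : Finset.univ.filter (fun i : Fin n => (f.comp V.mkQ) (mom n d i)
        = (f.comp V.mkQ) q0) = Finset.univ := by
      rw [Finset.filter_eq_self]
      intro i _
      have h3 : f (y i) = 0 := hfk (Submodule.subset_span ⟨i, rfl⟩)
      have h4 : (f.comp V.mkQ) (mom n d i - q0) = 0 := h3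
      rw [map_sub] at h4
      linarith
    rw [h2, Finset.card_univ, Fintype.card_fin] at h1
    omega
  obtain ⟨m, hml, b, hbr, hbs, hbl⟩ : ∃ m : ℕ, m = lam ∧ ∃ b : Fin m → Q,
      (∀ i, b i ∈ Set.range y) ∧ Submodule.span ℝ (Set.range b) = ⊤ ∧ LinearIndependent ℝ b := by
    obtain ⟨b, hbr, hbs, hbl⟩ := Submodule.exists_fun_fin_finrank_span_eq ℝ (Set.range y)
    refine ⟨_, ?_, b, hbr, hbs.trans hspan, hbl⟩
    rw [hspan, finrank_top, hQr]
  set B := Module.Basis.mk hbl (le_of_eq hbs.symm) with hB
  have hBb : ∀ j, B j = b j := fun j => by rw [hB, Module.Basis.mk_apply]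
  choose idx hidx using hbr
  have hidxinj : Function.Injective idx := by
    intro a c hac
    apply hbl.injective
    rw [← hidx a, ← hidx c, hac]
  set last : Fin m := ⟨m - 1, by omega⟩ with hlast
  set J : Finset (Fin n) := (Finset.univ.erase last).image idx with hJ
  have hJc : J.card = m - 1 := by
    rw [hJ, Finset.card_image_of_injective _ hidxinj, Finset.card_erase_of_mem (Finset.mem_univ _),
      Finset.card_univ, Fintype.card_fin]
  set U1 : E d →ₗ[ℝ] ℝ := (B.coord last).comp V.mkQ with hU1
  set U2 : E d →ₗ[ℝ] ℝ := (∑ j ∈ Finset.univ.erase last, B.coord j).comp V.mkQ with hU2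
  have hU1V : ∀ v ∈ V, U1 v = 0 := by
    intro v hv
    have : V.mkQ v = 0 := by simpa using hv
    rw [hU1, LinearMap.comp_apply, this, map_zero]
  have hU2V : ∀ v ∈ V, U2 v = 0 := by
    intro v hv
    have : V.mkQ v = 0 := by simpa using hv
    rw [hU2, LinearMap.comp_apply, this, map_zero]
  have hmk : ∀ j, V.mkQ (mom n d (idx j) - q0) = B j := by
    intro j
    rw [hBb, ← hidx j]
    rfl
  have hU1J : ∀ i ∈ J, U1 (mom n d i - q0) = 0 := by
    intro i hi
    rw [hJ, Finset.mem_image] at hi
    obtain ⟨j, hj, rfl⟩ := hi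
    rw [hU1, LinearMap.comp_apply, hmk, Module.Basis.coord_apply, Module.Basis.repr_self,
      Finsupp.single_eq_of_ne]
    exact (Finset.ne_of_mem_erase hj).symm
  have hU2J : ∀ i ∈ J, U2 (mom n d i - q0) = 1 := by
    intro i hi
    rw [hJ, Finset.mem_image] at hi
    obtain ⟨j, hj, rfl⟩ := hi
    rw [hU2, LinearMap.comp_apply, hmk, LinearMap.sum_apply, Finset.sum_eq_single j]
    · rw [Module.Basis.coord_apply, Module.Basis.repr_self, Finsupp.single_eq_same]
    · intro l _ hl
      rw [Module.Basis.coord_apply, Module.Basis.repr_self, Finsupp.single_eq_of_ne]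
      exact hl
    · intro h; exact absurd hj h
  have hU1ne : U1 ≠ 0 := by
    intro h0
    have h1 : U1 (mom n d (idx last) - q0) = 1 := by
      rw [hU1, LinearMap.comp_apply, hmk, Module.Basis.coord_apply, Module.Basis.repr_self,
        Finsupp.single_eq_same]
    rw [h0] at h1
    simp at h1
  -- the two sides
  have hside : ∀ σ : ℝ, (Finset.univ.filter
      (fun i : Fin n => 0 < σ * U1 (mom n d i - q0))).card + (m - 1) < k := by
    intro σ
    set P := Finset.univ.filter (fun i : Fin n => 0 < σ * U1 (mom n d i - q0)) with hP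
    have hdisj : Disjoint P J := by
      rw [Finset.disjoint_left]
      intro i hi hiJ
      rw [hP, Finset.mem_filter] at hi
      rw [hU1J i hiJ, mul_zero] at hi
      exact lt_irrefl _ hi.2
    by_contra hcon
    push Not at hcon
    rw [← hJc, ← Finset.card_union_of_disjoint hdisj] at hcon
    obtain ⟨Y, hYs, hYc⟩ := Finset.exists_subset_card_eq hcon
    have hev : ∀ᶠ ε : ℝ in 𝓝[>] 0, ∀ i ∈ P,
        0 < σ * U1 (mom n d i - q0) + ε * U2 (mom n d i - q0) := by
      rw [Filter.eventually_all_finset]
      intro i hi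
      rw [hP, Finset.mem_filter] at hi
      have hc : Tendsto (fun ε : ℝ => σ * U1 (mom n d i - q0) + ε * U2 (mom n d i - q0))
          (𝓝[>] 0) (𝓝 (σ * U1 (mom n d i - q0) + 0 * U2 (mom n d i - q0))) := by
        apply Tendsto.mono_left _ nhdsWithin_le_nhds
        exact (tendsto_const_nhds).add (tendsto_id.mul_const _)
      rw [zero_mul, add_zero] at hc
      exact hc.eventually (lt_mem_nhds hi.2)
    obtain ⟨ε, hε, hεpos⟩ := (hev.and self_mem_nhdsWithin).exists
    apply hsep (σ • U1 + ε • U2) _ Y hYc
    · intro i hi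
      have h1 : 0 < (σ • U1 + ε • U2) (mom n d i - q0) := by
        rw [LinearMap.add_apply, LinearMap.smul_apply, LinearMap.smul_apply, smul_eq_mul,
          smul_eq_mul]
        rcases Finset.mem_union.1 (hYs hi) with h | h
        · exact hε i h
        · rw [hU1J i h, hU2J i h, mul_zero, zero_add, mul_one]
          exact hεpos
      rw [map_sub] at h1
      linarith
    · intro v hv
      rw [LinearMap.add_apply, LinearMap.smul_apply, LinearMap.smul_apply, hU1V v hv, hU2V v hv]
      simp
  have h1 := hside 1
  have h2 := hside (-1)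
  have h3 := hyperplane_card (n := n) U1 hU1ne (U1 q0)
  have h4 : (Finset.univ : Finset (Fin n)) ⊆
      (Finset.univ.filter (fun i : Fin n => 0 < 1 * U1 (mom n d i - q0))) ∪
      ((Finset.univ.filter (fun i : Fin n => 0 < (-1) * U1 (mom n d i - q0))) ∪
        (Finset.univ.filter (fun i : Fin n => U1 (mom n d i) = U1 q0))) := by
    intro i _
    simp only [Finset.mem_union, Finset.mem_filter, Finset.mem_univ, true_and, map_sub]
    rcases lt_trichotomy (U1 (mom n d i)) (U1 q0) with h | h | h
    · right; left; linarith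
    · right; right; exact h
    · left; linarith
  have h5 := Finset.card_le_card h4
  have h6 := Finset.card_union_le
    (Finset.univ.filter (fun i : Fin n => 0 < 1 * U1 (mom n d i - q0)))
    ((Finset.univ.filter (fun i : Fin n => 0 < (-1) * U1 (mom n d i - q0))) ∪
        (Finset.univ.filter (fun i : Fin n => U1 (mom n d i) = U1 q0)))
  have h7 := Finset.card_union_le
    (Finset.univ.filter (fun i : Fin n => 0 < (-1) * U1 (mom n d i - q0)))
        (Finset.univ.filter (fun i : Fin n => U1 (mom n d i) = U1 q0))
  rw [Finset.card_univ, Fintype.card_fin] at h5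
  omega

end H569KT
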